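import Pool.Agent.H54.WB.TargetsA

/-! Row KES of wdb_modules: from level `l` to level `l + 1`. -/

set_option autoImplicit false

namespace Pool.Agent.H44.WB

open Pool.Agent.H54.WB

theorem Tw_mono (l : ℕ) {d e : ℕ} (h : d ≤ e) : Tw l d ≤ Tw l e := by
  induction l with
  | zero => exact h
  | succ l ih => exact Nat.pow_le_pow_right (by norm_num) ih

theorem pf_KES (hBIT : T_BIT) : T_KES := by
  intro V Q _ L U Hh Vv E ro bt mk ti rk d l hR hd hl h
  obtain ⟨b1, b2, b3, b4, b5, b6, b7, _⟩ := hBIT (Tw l d)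
  let A : V → ℕ → Prop := fun x i =>
    ∃ p, Pos E ro l x p ∧ vl E ro bt rk d l p = i ∧ On E bt l x p
  have hv' : ∀ x, vl E ro bt rk d (l + 1) x = bv (Tw l d) (A x) := fun x => rfl
  have hTw : Tw (l + 1) d = 2 ^ Tw l d := rfl
  have hpos : ∀ x p, Pos E ro l x p → ro p = l := by
    intro x p hp
    cases l with
    | zero => exact hp
    | succ k => exact hp.2
  have hmem : ∀ x p, ro x = l + 1 → Pos E ro l x p → vl E ro bt rk d l p < Tw l d :=
    fun x p hx hp => (h.bij x hx hl).mapsTo hp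
  have hex : ∀ x, ro x = l + 1 → ∀ i < Tw l d, ∃ p, Pos E ro l x p ∧ vl E ro bt rk d l p = i := by
    intro x hx i hi
    obtain ⟨p, hp, hpi⟩ := (h.bij x hx hl).surjOn hi
    exact ⟨p, hp, hpi⟩
  have hA : ∀ x p, ro x = l + 1 → Pos E ro l x p →
      (On E bt l x p ↔ A x (vl E ro bt rk d l p)) := by
    intro x p hx hp
    constructor
    · intro hon
      exact ⟨p, hp, rfl, hon⟩
    · rintro ⟨p', hp', he, hon⟩
      have : p' = p := (h.bij x hx hl).injOn hp' hp he
      rw [← this]
      exact hon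
  have hS : ∀ x y p q, Pos E ro l x p → Pos E ro l y q →
      (Same E ro bt l p q ↔ vl E ro bt rk d l p = vl E ro bt rk d l q) :=
    fun x y p q hp hq => h.sm p q (hpos x p hp) (hpos y q hq)
  have hT : ∀ x y p q, Pos E ro l x p → Pos E ro l y q →
      (Lt E ro bt (fun v => ro v = L + 2) l p q ↔
        vl E ro bt rk d l p < vl E ro bt rk d l q) :=
    fun x y p q hp hq => h.lo p q (hpos x p hp) (hpos y q hq)
  have hlt : ∀ x, ro x = l + 1 → vl E ro bt rk d (l + 1) x < Tw (l + 1) d := by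
    intro x _
    rw [hv', hTw]
    exact b1 _
  have hsm : ∀ x y, ro x = l + 1 → ro y = l + 1 →
      (Same E ro bt (l + 1) x y ↔ vl E ro bt rk d (l + 1) x = vl E ro bt rk d (l + 1) y) := by
    intro x y hx hy
    rw [hv', hv', ← b2]
    constructor
    · intro hs i hi
      obtain ⟨p, hp, hpi⟩ := hex x hx i hi
      obtain ⟨q, hq, hqi⟩ := hex y hy i hi
      have h1 := hs p q hp hq ((hS x y p q hp hq).2 (hpi.trans hqi.symm))
      rw [hA x p hx hp, hA y q hy hq, hpi, hqi] at h1
      exact h1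
    · intro hs p q hp hq hpq
      rw [hS x y p q hp hq] at hpq
      rw [hA x p hx hp, hA y q hy hq, ← hpq]
      exact hs _ (hmem x p hx hp)
  have hsc : ∀ x y, ro x = l + 1 → ro y = l + 1 →
      (Suc E ro bt (fun v => ro v = L + 2) l x y ↔
        vl E ro bt rk d (l + 1) y = vl E ro bt rk d (l + 1) x + 1) := by
    intro x y hx hy
    rw [hv', hv', ← b4]
    constructor
    · rintro ⟨p, q, hp, hq, hpq, hn, ho, hr⟩
      rw [hS x y p q hp hq] at hpq
      rw [hA x p hx hp] at hn
      rw [hA y q hy hq, ← hpq] at ho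
      refine ⟨_, hmem x p hx hp, hn, ho, fun j hj hij => ?_, fun j hj => ?_⟩
      · obtain ⟨p', hp', hpj⟩ := hex x hx j hj
        obtain ⟨q', hq', hqj⟩ := hex y hy j hj
        have h1 := (hr p' q' hp' hq' ((hS x y p' q' hp' hq').2 (hpj.trans hqj.symm))).1
          ((hT x x p p' hp hp').2 (by rw [hpj]; exact hij))
        rw [hA x p' hx hp', hA y q' hy hq', hpj, hqj] at h1
        exact h1
      · have hj' := hj.trans (hmem x p hx hp)
        obtain ⟨p', hp', hpj⟩ := hex x hx j hj'
        obtain ⟨q', hq', hqj⟩ := hex y hy j hj'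
        have h1 := (hr p' q' hp' hq' ((hS x y p' q' hp' hq').2 (hpj.trans hqj.symm))).2
          ((hT x x p' p hp' hp).2 (by rw [hpj]; exact hj))
        rw [hA x p' hx hp', hA y q' hy hq', hpj, hqj] at h1
        exact h1
    · rintro ⟨i, hi, hn, ho, hr1, hr2⟩
      obtain ⟨p, hp, hpi⟩ := hex x hx i hi
      obtain ⟨q, hq, hqi⟩ := hex y hy i hi
      refine ⟨p, q, hp, hq, (hS x y p q hp hq).2 (hpi.trans hqi.symm), ?_, ?_, ?_⟩
      · rw [hA x p hx hp, hpi]
        exact hn
      · rw [hA y q hy hq, hqi]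
        exact ho
      · intro p' q' hp' hq' hpq
        rw [hS x y p' q' hp' hq'] at hpq
        rw [hA x p' hx hp', hA y q' hy hq', ← hpq, hT x x p p' hp hp', hT x x p' p hp' hp, hpi]
        exact ⟨fun h1 => hr1 _ (hmem x p' hx hp') h1, fun h1 => hr2 _ h1⟩
  have hzr : ∀ x, ro x = l + 1 → (Zer E ro bt l x ↔ vl E ro bt rk d (l + 1) x = 0) ∧
      (Max E ro bt l x ↔ vl E ro bt rk d (l + 1) x + 1 = Tw (l + 1) d) := by
    intro x hx
    rw [hv', hTw, ← b5, ← b6]
    constructor
    · constructor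
      · intro hz i hi hAi
        obtain ⟨p, hp, hpi⟩ := hex x hx i hi
        rw [← hpi, ← hA x p hx hp] at hAi
        exact hz p hp hAi
      · intro hz p hp hon
        rw [hA x p hx hp] at hon
        exact hz _ (hmem x p hx hp) hon
    · constructor
      · intro hz i hi
        obtain ⟨p, hp, hpi⟩ := hex x hx i hi
        have h1 := hz p hp
        rw [hA x p hx hp, hpi] at h1
        exact h1
      · intro hz p hp
        rw [hA x p hx hp]
        exact hz _ (hmem x p hx hp)
  refine ⟨hlt, hsm, ?_, ?_, ?_, ?_, ?_⟩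
  · -- order
    intro x y hx hy
    rw [hv', hv', ← b3]
    constructor
    · rintro ⟨p, q, hp, hq, hpq, hn, ho, hr⟩
      rw [hS x y p q hp hq] at hpq
      rw [hA x p hx hp] at hn
      rw [hA y q hy hq, ← hpq] at ho
      refine ⟨_, hmem x p hx hp, hn, ho, fun j hj hij => ?_⟩
      obtain ⟨p', hp', hpj⟩ := hex x hx j hj
      obtain ⟨q', hq', hqj⟩ := hex y hy j hj
      have h1 := hr p' q' hp' hq' ((hS x y p' q' hp' hq').2 (hpj.trans hqj.symm))
        ((hT x x p p' hp hp').2 (by rw [hpj]; exact hij))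
      rw [hA x p' hx hp', hA y q' hy hq', hpj, hqj] at h1
      exact h1
    · rintro ⟨i, hi, hn, ho, hr⟩
      obtain ⟨p, hp, hpi⟩ := hex x hx i hi
      obtain ⟨q, hq, hqi⟩ := hex y hy i hi
      refine ⟨p, q, hp, hq, (hS x y p q hp hq).2 (hpi.trans hqi.symm), ?_, ?_, ?_⟩
      · rw [hA x p hx hp, hpi]
        exact hn
      · rw [hA y q hy hq, hqi]
        exact ho
      · intro p' q' hp' hq' hpq
        rw [hS x y p' q' hp' hq'] at hpq
        rw [hA x p' hx hp', hA y q' hy hq', ← hpq, hT x x p p' hp hp', hpi]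
        exact fun h1 => hr _ (hmem x p' hx hp') h1
  · -- high numbers
    intro x hx
    have hT' : Tw (l + 1) (d - 1) = 2 ^ Tw l (d - 1) := rfl
    rw [hv', hT', ← b7 _ _ (Tw_mono l (Nat.sub_le d 1))]
    constructor
    · rintro ⟨p, hp, hon, hh⟩
      rw [h.hi p (hpos x p hp)] at hh
      rw [hA x p hx hp] at hon
      exact ⟨_, hmem x p hx hp, hon, hh⟩
    · rintro ⟨i, hi, hAi, hh⟩
      obtain ⟨p, hp, hpi⟩ := hex x hx i hi
      refine ⟨p, hp, ?_, ?_⟩
      · rw [hA x p hx hp, hpi]
        exact hAi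
      · rw [h.hi p (hpos x p hp), hpi]
        exact hh
  · intro k hk x y hx hy
    obtain rfl : k = l := by omega
    exact hsc x y hx hy
  · intro k hk x hx
    obtain rfl : k = l := by omega
    exact hzr x hx
  · -- the children of a number of level `l + 2`
    intro x hx hl1
    have hro : ∀ p, Pos E ro (l + 1) x p → ro p = l + 1 := fun p hp => hp.2
    refine ⟨fun p hp => hlt p (hro p hp), fun p hp q hq he => ?_, ?_⟩
    · exact hR.inj (l + 1) x p q (by omega) hl1 hx hp hq
        ((hsm p q (hro p hp) (hro q hq)).2 he)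
    · intro i hi
      have hi' : i < Tw (l + 1) d := hi
      clear hi
      induction i with
      | zero =>
        obtain ⟨y, hy, hz⟩ := hR.zer l x hl1 hx
        exact ⟨y, hy, ((hzr y (hro y hy)).1).1 hz⟩
      | succ i ih =>
        obtain ⟨y, hy, hyi⟩ := ih (by omega)
        rcases hR.suc l x y hl1 hx hy with hm | ⟨y', hy', hs⟩
        · have h1 := ((hzr y (hro y hy)).2).1 hm
          rw [hyi] at h1
          omega
        · refine ⟨y', hy', ?_⟩
          have h1 := (hsc y y' (hro y hy) (hro y' hy')).1 hs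
          rw [hyi] at h1
          exact h1

end Pool.Agent.H44.WB
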